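import Pool.Agent.W23.DC.All

/-!
# Tuples of almost primes along arbitrary dense sets of primes

Let `A` be an ARBITRARY set of primes `p ≤ X` of positive relative density. For all but
`O(X ^ k)` of the `(k+1)`-tuples `(N_0, ..., N_k)` of integers in `[-2X, 2X]` the numbers
`N_0 - p, ..., N_k - p` are ALL of the form `m s` with `m ≤ X ^ ε` and `s` an almost prime
with at most two prime factors, both larger than `X ^ (1/7)`, for a positive proportion of the
primes `p ∈ A`; and every set of at least `C` integers contains a tuple with this property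
(`C` does not depend on `X`, on `A` or on the set of integers).

The proof iterates the theorem on one shift, `Pool.Agent.W23.DC.dense_almost_prime` (library
of the starting repository, helper23 and team), along the decreasing sets of primes that
survive; this is possible because that theorem holds for arbitrary dense sets.
-/

namespace Pool.Agent.Results.MP_e87c7d_nt.AlmostPrimeTuples

open Finset Filter Topology
open scoped Classical

/-- the integers of `[-2X, 2X]` -/
noncomputable def I (X : ℕ) : Finset ℤ := Icc (-(2 * X : ℤ)) (2 * X)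

/-- `|N - p|` is the product of a number `m ≤ X ^ ε` and of a number `s > 1` which has at
most two prime factors, both larger than `X ^ (1/7)` -/
def Good (ε : ℝ) (X : ℕ) (N : ℤ) (p : ℕ) : Prop :=
  ∃ m s : ℕ, (N - p).natAbs = m * s ∧ (m : ℝ) ≤ (X : ℝ) ^ ε ∧ 1 < s ∧
    s.primeFactorsList.length ≤ 2 ∧ ∀ q ∈ s.primeFactors, (X : ℝ) ^ (1 / 7 : ℝ) < q

/-- the tuples for which less than `c |A|` of the `p ∈ A` are good for all coordinates -/
noncomputable def Bad (g : ℤ → ℕ → Prop) (X k : ℕ) (A : Finset ℕ) (c : ℝ) :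
    Finset (Fin k → ℤ) :=
  (Fintype.piFinset fun _ : Fin k => I X).filter
    (fun N => ((A.filter (fun p => ∀ i, g (N i) p)).card : ℝ) < c * A.card)

lemma card_I (X : ℕ) : ((I X).card : ℝ) = 4 * X + 1 := by
  have h : (I X).card = 4 * X + 1 := by
    unfold I
    rw [Int.card_Icc]
    omega
  rw [h]; push_cast; ring

lemma card_pi (X k : ℕ) :
    ((Fintype.piFinset fun _ : Fin k => I X).card : ℝ) = (4 * X + 1) ^ k := by
  rw [Fintype.card_piFinset_const, Nat.cast_pow, card_I]

/-- the tuples in one step -/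
lemma bad_step (g : ℤ → ℕ → Prop) (X k : ℕ) (A : Finset ℕ) (c c' : ℝ) (hc' : 0 ≤ c')
    (B₁ B₂ : ℝ) (hB₂ : 0 ≤ B₂)
    (h1 : (((I X).filter (fun N => ((A.filter (fun p => g N p)).card : ℝ) < c * A.card)).card : ℝ)
      ≤ B₁)
    (h2 : ∀ A' : Finset ℕ, A' ⊆ A → c * A.card ≤ A'.card → ((Bad g X k A' c').card : ℝ) ≤ B₂) :
    ((Bad g X (k + 1) A (c' * c)).card : ℝ) ≤ B₁ * (4 * X + 1) ^ k + (4 * X + 1) * B₂ := by
  set E := (I X).filter (fun N => ((A.filter (fun p => g N p)).card : ℝ) < c * A.card) with hE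
  set S := Bad g X (k + 1) A (c' * c) with hS
  have hmap : ∀ N ∈ S, N 0 ∈ I X := by
    intro N hN
    rw [hS, Bad, mem_filter, Fintype.mem_piFinset] at hN
    exact hN.1 0
  have hfib : ∀ a ∈ I X, ((S.filter (fun N => N 0 = a)).card : ℝ) ≤
      (if a ∈ E then ((4 * X + 1) ^ k : ℝ) else 0) + B₂ := by
    intro a ha
    by_cases haE : a ∈ E
    · rw [if_pos haE]
      have : (S.filter (fun N => N 0 = a)).card ≤ (Fintype.piFinset fun _ : Fin k => I X).card := by
        refine card_le_card_of_injOn (fun N => Fin.tail N) ?_ ?_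
        · intro N hN
          have hN' := mem_filter.1 (mem_coe.1 hN)
          have hN2 := (Fintype.mem_piFinset.1 (mem_filter.1 hN'.1).1)
          exact mem_coe.2 (Fintype.mem_piFinset.2 fun i => hN2 i.succ)
        · intro N hN N' hN' h
          have e1 := (mem_filter.1 (mem_coe.1 hN)).2
          have e2 := (mem_filter.1 (mem_coe.1 hN')).2
          have h' : Fin.tail N = Fin.tail N' := h
          rw [← Fin.cons_self_tail N, ← Fin.cons_self_tail N', e1, e2, h']
      have h3 : ((S.filter (fun N => N 0 = a)).card : ℝ) ≤ (4 * X + 1) ^ k := by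
        rw [← card_pi]
        exact_mod_cast this
      linarith
    · rw [if_neg haE, zero_add]
      set A' := A.filter (fun p => g a p) with hA'
      have hA'c : c * A.card ≤ A'.card := by
        by_contra hlt
        exact haE (mem_filter.2 ⟨ha, not_le.1 hlt⟩)
      refine le_trans ?_ (h2 A' (filter_subset _ _) hA'c)
      have : (S.filter (fun N => N 0 = a)).card ≤ (Bad g X k A' c').card := by
        refine card_le_card_of_injOn (fun N => Fin.tail N) ?_ ?_
        · intro N hN
          have hN' := mem_filter.1 (mem_coe.1 hN)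
          have hNS := mem_filter.1 hN'.1
          have hN2 := (Fintype.mem_piFinset.1 hNS.1)
          refine mem_coe.2 (mem_filter.2 ⟨Fintype.mem_piFinset.2 fun i => hN2 i.succ, ?_⟩)
          have hset : A'.filter (fun p => ∀ i, g (Fin.tail N i) p) =
              A.filter (fun p => ∀ i, g (N i) p) := by
            ext p
            simp only [hA', mem_filter, Fin.tail, Fin.forall_fin_succ, hN'.2, and_assoc]
          rw [hset]
          have h4 := hNS.2
          have h5 : c' * c * A.card ≤ c' * A'.card := by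
            rw [mul_assoc]
            exact mul_le_mul_of_nonneg_left hA'c hc'
          linarith
        · intro N hN N' hN' h
          have e1 := (mem_filter.1 (mem_coe.1 hN)).2
          have e2 := (mem_filter.1 (mem_coe.1 hN')).2
          have h' : Fin.tail N = Fin.tail N' := h
          rw [← Fin.cons_self_tail N, ← Fin.cons_self_tail N', e1, e2, h']
      exact_mod_cast this
  have hsum : (S.card : ℝ) = ∑ a ∈ I X, ((S.filter (fun N => N 0 = a)).card : ℝ) := by
    rw [card_eq_sum_card_fiberwise hmap]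
    push_cast
    rfl
  rw [hsum]
  refine (sum_le_sum hfib).trans ?_
  rw [sum_add_distrib, sum_const, nsmul_eq_mul, card_I, ← sum_filter, sum_const, nsmul_eq_mul]
  have hEE : (I X).filter (fun a => a ∈ E) = E := by
    ext a
    simp [hE, mem_filter]
  rw [hEE]
  have hp : (0 : ℝ) ≤ (4 * X + 1) ^ k := by positivity
  have := mul_le_mul_of_nonneg_right h1 hp
  linarith

lemma bad_zero (g : ℤ → ℕ → Prop) (X : ℕ) (A : Finset ℕ) (c : ℝ) (hc : c ≤ 1) :
    Bad g X 0 A c = ∅ := by
  rw [Bad, filter_eq_empty_iff]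
  intro N _
  have : A.filter (fun p => ∀ i, g (N i) p) = A :=
    filter_true_of_mem fun p _ i => i.elim0
  rw [this, not_lt]
  exact mul_le_of_le_one_left (Nat.cast_nonneg _) hc

lemma card_le_of (X : ℕ) (A : Finset ℕ) (hA : ∀ p ∈ A, p.Prime ∧ p ≤ X) :
    (A.card : ℝ) ≤ X := by
  have h : A ⊆ Icc 1 X := fun p hp => mem_Icc.2 ⟨(hA p hp).1.one_le, (hA p hp).2⟩
  have := card_le_card h
  rw [Nat.card_Icc] at this
  exact_mod_cast (by omega : A.card ≤ X)

lemma bad_trivial (g : ℤ → ℕ → Prop) (X k : ℕ) (A : Finset ℕ) (c : ℝ) (hX : 1 ≤ X) :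
    ((Bad g X k A c).card : ℝ) ≤ 5 ^ k * (X : ℝ) ^ k := by
  have hX' : (1 : ℝ) ≤ X := by exact_mod_cast hX
  have h1 : ((Bad g X k A c).card : ℝ) ≤ (4 * X + 1) ^ k := by
    rw [← card_pi]
    exact_mod_cast card_le_card (filter_subset _ _)
  rw [← mul_pow]
  exact h1.trans (pow_le_pow_left₀ (by positivity) (by linarith) k)

/-- **Dense sets, all tuples**, by induction -/
theorem dense_tuples (ε : ℝ) (hε : 0 < ε) (k : ℕ) : ∀ δ : ℝ, 0 < δ →
    ∃ c C : ℝ, 0 < c ∧ c ≤ 1 ∧ 0 ≤ C ∧ ∀ X : ℕ, 2 ≤ X → ∀ A : Finset ℕ,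
      (∀ p ∈ A, p.Prime ∧ p ≤ X) → δ * X / Real.log X ≤ A.card →
      ((Bad (Good ε X) X k A c).card : ℝ) ≤ C * (X ^ k / X) := by
  induction k with
  | zero =>
    intro δ _
    refine ⟨1, 0, one_pos, le_rfl, le_rfl, fun X _ A _ _ => ?_⟩
    rw [bad_zero _ _ _ _ le_rfl]
    simp
  | succ k ih =>
    intro δ hδ
    obtain ⟨c₀, K, hc₀, hmain⟩ := Pool.Agent.W23.DC.dense_almost_prime δ ε hδ hε
    set c := min c₀ 1 with hc
    have hcpos : 0 < c := lt_min hc₀ one_pos
    have hc1 : c ≤ 1 := min_le_right _ _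
    obtain ⟨c', C', hc', hc'1, hC', hk⟩ := ih (c * δ) (by positivity)
    refine ⟨c' * c, K * 5 ^ k + 5 * C', by positivity, mul_le_one₀ hc'1 hcpos.le hc1, by positivity,
      fun X hX A hA hcard => ?_⟩
    have hX1 : (1 : ℝ) ≤ X := by exact_mod_cast (by omega : 1 ≤ X)
    have hX0 : (0 : ℝ) < X := by linarith
    have hlog : 0 < Real.log X := Real.log_pos (by exact_mod_cast (by omega : 1 < X))
    have hstep := bad_step (Good ε X) X k A c c' hc'.le K (C' * (X ^ k / X)) (by positivity) ?_ ?_
    · refine hstep.trans ?_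
      have h45 : (4 * X + 1 : ℝ) ≤ 5 * X := by linarith
      have ha : (K : ℝ) * (4 * X + 1) ^ k ≤ K * 5 ^ k * (X ^ (k + 1) / X) := by
        calc (K : ℝ) * (4 * X + 1) ^ k ≤ K * (5 * X) ^ k := by gcongr
          _ = K * 5 ^ k * (X ^ (k + 1) / X) := by
            rw [mul_pow, pow_succ]; field_simp
      have hb : (4 * X + 1) * (C' * (X ^ k / X)) ≤ 5 * C' * (X ^ (k + 1) / X) := by
        calc (4 * X + 1) * (C' * (X ^ k / X)) ≤ (5 * X) * (C' * (X ^ k / X)) := by gcongr
          _ = 5 * C' * (X ^ (k + 1) / X) := by rw [pow_succ]; field_simp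
      linarith
    · have h := hmain X hX A hA hcard
      have hsub : (I X).filter (fun N => ((A.filter (fun p => Good ε X N p)).card : ℝ) <
          c * A.card) ⊆ (Icc (-(2 * X : ℤ)) (2 * X)).filter (fun N : ℤ => ((A.filter (fun p : ℕ =>
          ∃ m s : ℕ, (N - p).natAbs = m * s ∧ (m : ℝ) ≤ (X : ℝ) ^ ε ∧ 1 < s ∧
          s.primeFactorsList.length ≤ 2 ∧
          ∀ q ∈ s.primeFactors, (X : ℝ) ^ (1 / 7 : ℝ) < q)).card : ℝ) < c₀ * A.card) := by
        intro N hN
        rw [mem_filter] at hN ⊢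
        refine ⟨hN.1, lt_of_lt_of_le hN.2 ?_⟩
        exact mul_le_mul_of_nonneg_right (min_le_left _ _) (Nat.cast_nonneg _)
      exact_mod_cast (card_le_card hsub).trans h
    · intro A' hA'A hA'c
      refine hk X hX A' (fun p hp => hA p (hA'A hp)) ?_
      calc c * δ * X / Real.log X = c * (δ * X / Real.log X) := by ring
        _ ≤ c * A.card := by gcongr
        _ ≤ A'.card := hA'c

/-- **Every large set of shifts contains a good `k`-element set**, by induction -/
theorem dense_subset (ε : ℝ) (hε : 0 < ε) (k : ℕ) : ∀ δ : ℝ, 0 < δ →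
    ∃ c C : ℝ, 0 < c ∧ 0 ≤ C ∧ ∀ X : ℕ, 2 ≤ X → ∀ A : Finset ℕ,
      (∀ p ∈ A, p.Prime ∧ p ≤ X) → δ * X / Real.log X ≤ A.card →
      ∀ H ⊆ I X, C ≤ H.card → ∃ S ⊆ H, S.card = k ∧
        c * A.card ≤ (A.filter (fun p => ∀ h ∈ S, Good ε X h p)).card := by
  induction k with
  | zero =>
    intro δ _
    refine ⟨1, 0, one_pos, le_rfl, fun X _ A _ _ H _ _ => ⟨∅, empty_subset _, rfl, ?_⟩⟩
    simp
  | succ k ih =>
    intro δ hδ
    obtain ⟨c, K, hc, hmain⟩ := Pool.Agent.W23.DC.dense_almost_prime δ ε hδ hε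
    obtain ⟨c', C', hc', hC', hk⟩ := ih (c * δ) (by positivity)
    refine ⟨c' * c, K + C' + 1, by positivity, by positivity, fun X hX A hA hcard H hH hHc => ?_⟩
    have h := hmain X hX A hA hcard
    set E := (I X).filter (fun N => ((A.filter (fun p => Good ε X N p)).card : ℝ) <
        c * A.card) with hE
    have hEc : E.card ≤ K := by
      have hsub : E ⊆ (Icc (-(2 * X : ℤ)) (2 * X)).filter (fun N : ℤ =>
          ((A.filter (fun p : ℕ =>
          ∃ m s : ℕ, (N - p).natAbs = m * s ∧ (m : ℝ) ≤ (X : ℝ) ^ ε ∧ 1 < s ∧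
          s.primeFactorsList.length ≤ 2 ∧
          ∀ q ∈ s.primeFactors, (X : ℝ) ^ (1 / 7 : ℝ) < q)).card : ℝ) < c * A.card) := by
        intro N hN
        rw [hE, mem_filter] at hN
        rw [mem_filter]
        exact ⟨hN.1, hN.2⟩
      exact (card_le_card hsub).trans h
    have hlt : E.card < H.card := by
      have h1 : (K : ℝ) < H.card := by linarith
      exact lt_of_le_of_lt hEc (by exact_mod_cast h1)
    obtain ⟨h₀, hh₀, hh₀E⟩ := exists_mem_notMem_of_card_lt_card hlt
    set A' := A.filter (fun p => Good ε X h₀ p) with hA'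
    have hA'c : c * A.card ≤ A'.card := by
      by_contra hcon
      exact hh₀E (mem_filter.2 ⟨hH hh₀, not_le.1 hcon⟩)
    obtain ⟨S, hS, hSk, hSc⟩ := hk X hX A' (fun p hp => hA p (mem_filter.1 hp).1)
      (by
        calc c * δ * X / Real.log X = c * (δ * X / Real.log X) := by ring
          _ ≤ c * A.card := by gcongr
          _ ≤ A'.card := hA'c)
      (H.erase h₀) ((erase_subset _ _).trans hH) (by
        rw [card_erase_of_mem hh₀, Nat.cast_sub (card_pos.2 ⟨h₀, hh₀⟩), Nat.cast_one]
        have : (0 : ℝ) ≤ K := Nat.cast_nonneg _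
        linarith)
    refine ⟨insert h₀ S, ?_, ?_, ?_⟩
    · intro x hx
      rcases mem_insert.1 hx with rfl | hx
      · exact hh₀
      · exact (erase_subset _ _) (hS hx)
    · rw [card_insert_of_notMem (fun h => notMem_erase h₀ H (hS h)), hSk]
    · have hset : A'.filter (fun p => ∀ h ∈ S, Good ε X h p) =
          A.filter (fun p => ∀ h ∈ insert h₀ S, Good ε X h p) := by
        ext p
        simp only [hA', mem_filter, forall_mem_insert, and_assoc]
      rw [← hset, mul_assoc]
      exact (mul_le_mul_of_nonneg_left hA'c hc'.le).trans hSc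

/-- **Tuples of almost primes along arbitrary dense sets of primes.** For all `ε, δ > 0` and
`k` there are `c > 0` and `C` such that for all `X ≥ 2` and ALL sets `A` of primes `p ≤ X`
with at least `δ X / log X` members: for all but at most `C X ^ k` of the `(k+1)`-tuples `N`
of integers of `[-2X, 2X]` the numbers `|N_0 - p|, ..., |N_k - p|` are ALL of the form `m s`,
with `m ≤ X ^ ε` and `s > 1` with at most two prime factors, both above `X ^ (1/7)`, for at
least `c |A|` of the primes `p ∈ A`; and every set `H` of at least `C` integers of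
`[-2X, 2X]` contains `k + 1` integers which, as a tuple, have this property. -/
theorem result (ε : ℝ) (hε : 0 < ε) (δ : ℝ) (hδ : 0 < δ) (k : ℕ) :
    ∃ c C : ℝ, 0 < c ∧ ∀ X : ℕ, 2 ≤ X → ∀ A : Finset ℕ, (∀ p ∈ A, p.Prime ∧ p ≤ X) →
      δ * X / Real.log X ≤ A.card →
      (((Fintype.piFinset fun _ : Fin (k + 1) => Icc (-(2 * X : ℤ)) (2 * X)).filter (fun N =>
        ((A.filter (fun p => ∀ i, Good ε X (N i) p)).card : ℝ) < c * A.card)).card : ℝ) ≤
          C * X ^ k ∧
      ∀ H ⊆ Icc (-(2 * X : ℤ)) (2 * X), C ≤ H.card → ∃ S ⊆ H, S.card = k + 1 ∧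
        c * A.card ≤ (A.filter (fun p => ∀ h ∈ S, Good ε X h p)).card := by
  obtain ⟨c, C, hc, _, hC, h⟩ := dense_tuples ε hε (k + 1) δ hδ
  obtain ⟨c', C', hc', hC', h'⟩ := dense_subset ε hε (k + 1) δ hδ
  refine ⟨min c c', max C C', lt_min hc hc', fun X hX A hA hcard => ⟨?_, fun H hH hHc => ?_⟩⟩
  · have hX0 : (X : ℝ) ≠ 0 := by exact_mod_cast (by omega : X ≠ 0)
    have h1 := h X hX A hA hcard
    have h2 : ((Fintype.piFinset fun _ : Fin (k + 1) => Icc (-(2 * X : ℤ)) (2 * X)).filter
        (fun N => ((A.filter (fun p => ∀ i, Good ε X (N i) p)).card : ℝ) <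
          min c c' * A.card)) ⊆ Bad (Good ε X) X (k + 1) A c := by
      intro N hN
      rw [mem_filter] at hN
      exact mem_filter.2 ⟨hN.1, lt_of_lt_of_le hN.2
        (mul_le_mul_of_nonneg_right (min_le_left _ _) (Nat.cast_nonneg _))⟩
    have h3 : (X : ℝ) ^ (k + 1) / X = X ^ k := by
      rw [pow_succ, mul_div_assoc, div_self hX0, mul_one]
    rw [h3] at h1
    calc _ ≤ ((Bad (Good ε X) X (k + 1) A c).card : ℝ) := by exact_mod_cast card_le_card h2
      _ ≤ C * X ^ k := h1
      _ ≤ max C C' * X ^ k := mul_le_mul_of_nonneg_right (le_max_left _ _) (by positivity)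
  · obtain ⟨S, hS, hSk, hSc⟩ := h' X hX A hA hcard H hH ((le_max_right _ _).trans hHc)
    exact ⟨S, hS, hSk, (mul_le_mul_of_nonneg_right (min_le_right _ _)
      (Nat.cast_nonneg _)).trans hSc⟩

end Pool.Agent.Results.MP_e87c7d_nt.AlmostPrimeTuples
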