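import Pool.Agent.TH935.TG4

/-!
# The prime `k`-tuples asymptotics at the elements of arbitrary sets, for almost all `k`-tuples of shifts
from products of thin families
-/

set_option autoImplicit false

namespace Pool.Agent.Results.MP_e87c7d_nt.ArbitraryArguments

open Finset

open Classical in
/-- The number of `n ∈ M` with `y₁ < n ≤ y₂` such that `|n + a i|` is prime for every `i`. -/
noncomputable def primeCount {k : ℕ} (a : Fin k → ℤ) (M : Set ℕ) (y₁ y₂ : ℕ) : ℕ :=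
  ((Ioc y₁ y₂).filter (fun n : ℕ => n ∈ M ∧ ∀ i, ((n : ℤ) + a i).natAbs.Prime)).card

open Classical in
/-- The number of `n ∈ M` with `y₁ < n ≤ y₂` such that no `n + a i` is divisible by a prime `p ≤ z`. -/
noncomputable def roughCount {k : ℕ} (a : Fin k → ℤ) (z : ℕ) (M : Set ℕ) (y₁ y₂ : ℕ) : ℕ :=
  ((Ioc y₁ y₂).filter (fun n : ℕ => n ∈ M ∧ ∀ i, ∀ p : ℕ, p.Prime → p ≤ z → ¬ (p : ℤ) ∣ (n : ℤ) + a i)).card

/-- `∏_{p ≤ z} (1 - 1 / p)`, the density of the integers without prime factors `≤ z`. -/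
noncomputable def V (z : ℕ) : ℝ := ∏ p ∈ (Icc 1 z).filter Nat.Prime, (1 - 1 / (p : ℝ))

/-- For every one of the sets `𝒩 l` and every window `y₁ < n ≤ y₂` with `y₂ ≤ B N` which contains at least
`N / log ^ K N` elements `n` of `𝒩 l` such that the numbers `n + a i` have no prime factor `≤ z`, the
proportion of these elements for which all `|n + a i|` are prime is `1 / (V z log N) ^ k`, up to a relative
error of at most `ε`. -/
def Holds (ε : ℝ) (K B N z : ℕ) {k m : ℕ} (𝒩 : Fin m → Set ℕ) (a : Fin k → ℤ) : Prop :=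
  ∀ l : Fin m, ∀ y₁ y₂ : ℕ, y₁ ≤ y₂ → y₂ ≤ B * N →
    (N : ℝ) / Real.log N ^ K ≤ roughCount a z (𝒩 l) y₁ y₂ →
    |(primeCount a (𝒩 l) y₁ y₂ : ℝ) - roughCount a z (𝒩 l) y₁ y₂ / (V z * Real.log N) ^ k| ≤
      ε * (roughCount a z (𝒩 l) y₁ y₂ / (V z * Real.log N) ^ k)

/-- The additive energy of order `h` of a finite family of integers `v j`: the number of solutions of
`v (x 1) + ... + v (x h) = v (y 1) + ... + v (y h)`. -/
noncomputable def energy (h : ℕ) {ι : Type} [Fintype ι] (v : ι → ℤ) : ℕ :=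
  Nat.card {q : (Fin h → ι) × (Fin h → ι) // ∑ j, v (q.1 j) = ∑ j, v (q.2 j)}

/-- The number of representations of `t` as `v (x 1) + ... + v (x h)`. -/
noncomputable def reps (h : ℕ) {ι : Type} [Fintype ι] (v : ι → ℤ) (t : ℤ) : ℕ :=
  Nat.card {x : Fin h → ι // ∑ j, v (x j) = t}

open Classical in
/-- The number of the vectors `a = (v 1 (q 1), ..., v k (q k))`, `q i ∈ ι i`, for which `Holds` fails. -/
noncomputable def exceptions (ε : ℝ) (K B N z : ℕ) {k m : ℕ} (𝒩 : Fin m → Set ℕ) {ι : Fin k → Type}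
    [∀ i, Fintype (ι i)] (v : ∀ i, ι i → ℤ) : ℕ :=
  (univ.filter (fun q : ∀ i, ι i => ¬ Holds ε K B N z 𝒩 (fun i => v i (q i)))).card

open Pool.Agent.TH935.TG
open Pool.Agent.H373R2.T7 (pz mem_pz Vz)

open Classical in
lemma prime_eq {k : ℕ} (a : Fin k → ℤ) (M : Set ℕ) (Y y₁ y₂ : ℕ) (hY : y₂ ≤ Y) :
    primeCount a M y₁ y₂ = cnM (fun _ => 1) a (win ((Ioc 0 Y).filter (· ∈ M)) y₁ y₂) := by
  unfold primeCount cnM win
  rw [filter_filter, filter_filter]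
  congr 1
  ext n
  rw [mem_filter, mem_filter, mem_Ioc, mem_Ioc]
  simp only [one_mul]
  constructor
  · rintro ⟨⟨h1, h2⟩, h3, h4⟩
    exact ⟨⟨by omega, by omega⟩, h3, ⟨h1, h2⟩, h4⟩
  · rintro ⟨_, h3, ⟨h1, h2⟩, h4⟩
    exact ⟨⟨h1, h2⟩, h3, h4⟩

open Classical in
lemma rough_eq {k : ℕ} (a : Fin k → ℤ) (z : ℕ) (M : Set ℕ) (Y y₁ y₂ : ℕ) (hY : y₂ ≤ Y) :
    roughCount a z M y₁ y₂ = rgM (fun _ => 1) a z (win ((Ioc 0 Y).filter (· ∈ M)) y₁ y₂) := by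
  unfold roughCount rgM win
  rw [filter_filter, filter_filter]
  congr 1
  ext n
  rw [mem_filter, mem_filter, mem_Ioc, mem_Ioc]
  simp only [one_mul]
  constructor
  · rintro ⟨⟨h1, h2⟩, h3, h4⟩
    exact ⟨⟨by omega, by omega⟩, h3, ⟨h1, h2⟩, fun i p hp => h4 i p (mem_pz.1 hp).2 (mem_pz.1 hp).1⟩
  · rintro ⟨_, h3, ⟨h1, h2⟩, h4⟩
    exact ⟨⟨h1, h2⟩, h3, fun i p hp1 hp2 => h4 i p (mem_pz.2 ⟨hp2, hp1⟩)⟩

lemma V_eq (z : ℕ) : V z = Vz z := rfl

open Classical in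
lemma holds_of (ε : ℝ) (K B N z : ℕ) {k m : ℕ} (𝒩 : Fin m → Set ℕ) (a : Fin k → ℤ)
    (h : HB ε K 0 B N z (fun l : Fin m => (Ioc 0 (B * N)).filter (· ∈ 𝒩 l)) a) : Holds ε K B N z 𝒩 a := by
  intro l y₁ y₂ h12 hy2 hR
  have h1 := h (fun _ => 1) (fun _ => one_ne_zero) (fun _ => by simp) l y₁ y₂ h12 hy2
  rw [rough_eq a z (𝒩 l) (B * N) y₁ y₂ hy2] at hR ⊢
  rw [prime_eq a (𝒩 l) (B * N) y₁ y₂ hy2, V_eq]
  exact h1 hR

theorem first (k h B C T U K : ℕ) (hk : 1 ≤ k) (ε : ℝ) (hε : 0 < ε) :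
    ∃ E₀ : ℕ, ∀ E : ℕ, E₀ ≤ E → ∃ N₀ : ℕ, ∀ N : ℕ, N₀ ≤ N →
      ∀ m : ℕ, (m : ℝ) ≤ Real.log N ^ T → ∀ 𝒩 : Fin m → Set ℕ,
      ∀ (ι : Fin k → Type) [∀ i, Fintype (ι i)] (v : ∀ i, ι i → ℤ),
      (∀ i j, |v i j| ≤ B * N) →
      (∀ i, (energy h (v i) : ℝ) * N ≤ Real.log N ^ C * (Fintype.card (ι i) : ℝ) ^ (2 * h)) →
      (exceptions ε K B N ⌊Real.log N ^ E⌋₊ 𝒩 v : ℝ) ≤ (∏ i, (Fintype.card (ι i) : ℝ)) / Real.log N ^ U := by
  classical
  obtain ⟨E0, h0⟩ := fam_types k h B C 0 T U K hk ε hε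
  refine ⟨E0, fun E hE => ?_⟩
  obtain ⟨n0, h1⟩ := h0 E hE
  refine ⟨n0, fun N hN m hm 𝒩 ι _ v hv hE' => ?_⟩
  unfold exceptions
  refine h1 N hN (Fin m) (by rw [Fintype.card_fin]; exact hm) (fun l : Fin m => (Ioc 0 (B * N)).filter (· ∈ 𝒩 l))
    (fun l => filter_subset _ _) ι v hv hE' _ ?_
  intro q hq hH
  rw [mem_filter] at hq
  exact hq.2 (holds_of ε K B N _ 𝒩 _ hH)

/-- Let `k ≥ 1`, `h`, `B`, `C`, `T`, `U`, `K` and `ε > 0` be fixed, let `E` be large in terms of these, let `N`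
be large in terms of all of them, and put `z = ⌊log ^ E N⌋`. Let `𝒩 l`, `l = 1, ..., m`, be arbitrary sets of
positive integers, `m ≤ log ^ T N`. For `i = 1, ..., k` let `v i j`, `j ∈ ι i`, be an arbitrary finite family of
integers with `|v i j| ≤ B N`.

* Suppose that for every `i` the additive energy of order `h` of the `i`-th family is at most `log ^ C N`
  times `(#ι i) ^ (2 h) / N` (up to the power of the logarithm this is the least possible energy of a family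
  with members in `[-B N, B N]`, and the family may have as few as `N ^ (1 / h)` members). Then for all
  vectors `(a 1, ..., a k)`, `a i` from the `i`-th family, with at most `(∏ #ι i) / log ^ U N` exceptions,
  the following holds simultaneously for all the sets `𝒩 l` and all windows `(y₁, y₂]` with `y₂ ≤ B N`: if
  `R` is the number of the elements `n` of `𝒩 l` in the window for which `n + a 1, ..., n + a k` have no
  prime factor `≤ z`, and `R ≥ N / log ^ K N`, then the number of the elements `n` of `𝒩 l` in the window for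
  which `|n + a 1|, ..., |n + a k|` are all prime is `(1 + O(ε)) R / (V z log N) ^ k`, where
  `V z = ∏_{p ≤ z} (1 - 1 / p)`.
* In particular this holds if for every `i` no integer has more than `log ^ C N` representations as a sum of
  `h` members of the `i`-th family, and `(#ι i) ^ h ≥ N / log ^ C N`. -/
theorem result (k h B C T U K : ℕ) (hk : 1 ≤ k) (ε : ℝ) (hε : 0 < ε) :
    (∃ E₀ : ℕ, ∀ E : ℕ, E₀ ≤ E → ∃ N₀ : ℕ, ∀ N : ℕ, N₀ ≤ N →
      ∀ m : ℕ, (m : ℝ) ≤ Real.log N ^ T → ∀ 𝒩 : Fin m → Set ℕ,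
      ∀ (ι : Fin k → Type) [∀ i, Fintype (ι i)] (v : ∀ i, ι i → ℤ),
      (∀ i j, |v i j| ≤ B * N) →
      (∀ i, (energy h (v i) : ℝ) * N ≤ Real.log N ^ C * (Fintype.card (ι i) : ℝ) ^ (2 * h)) →
      (exceptions ε K B N ⌊Real.log N ^ E⌋₊ 𝒩 v : ℝ) ≤ (∏ i, (Fintype.card (ι i) : ℝ)) / Real.log N ^ U) ∧
    (∃ E₀ : ℕ, ∀ E : ℕ, E₀ ≤ E → ∃ N₀ : ℕ, ∀ N : ℕ, N₀ ≤ N →
      ∀ m : ℕ, (m : ℝ) ≤ Real.log N ^ T → ∀ 𝒩 : Fin m → Set ℕ,
      ∀ (ι : Fin k → Type) [∀ i, Fintype (ι i)] (v : ∀ i, ι i → ℤ),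
      (∀ i j, |v i j| ≤ B * N) →
      (∀ i t, (reps h (v i) t : ℝ) ≤ Real.log N ^ C) →
      (∀ i, (N : ℝ) ≤ Real.log N ^ C * (Fintype.card (ι i) : ℝ) ^ h) →
      (exceptions ε K B N ⌊Real.log N ^ E⌋₊ 𝒩 v : ℝ) ≤ (∏ i, (Fintype.card (ι i) : ℝ)) / Real.log N ^ U) := by
  refine ⟨first k h B C T U K hk ε hε, ?_⟩
  obtain ⟨E0, hE0⟩ := first k h B (2 * C) T U K hk ε hε
  refine ⟨E0, fun E hE => ?_⟩
  obtain ⟨N₀, h0⟩ := hE0 E hE
  obtain ⟨N₁, h1⟩ := Pool.Agent.H373R2.T7.ev_L' 1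
  refine ⟨N₀ + N₁, fun N hN m hm 𝒩 ι _ v hv hJ hx => ?_⟩
  apply h0 N (by omega) m hm 𝒩 ι v hv
  have hL := h1 N (by omega)
  have hL0 : 0 ≤ Real.log N := by linarith
  intro i
  have h2 : (energy h (v i) : ℝ) ≤ (Fintype.card (ι i) : ℝ) ^ h * Real.log N ^ C :=
    Pool.Agent.TH935.GF.En_le h (v i) _ (hJ i)
  calc (energy h (v i) : ℝ) * N ≤ ((Fintype.card (ι i) : ℝ) ^ h * Real.log N ^ C) * (Real.log N ^ C * (Fintype.card (ι i) : ℝ) ^ h) :=
        mul_le_mul h2 (hx i) (Nat.cast_nonneg _) (by positivity)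
    _ = Real.log N ^ (2 * C) * (Fintype.card (ι i) : ℝ) ^ (2 * h) := by ring

end Pool.Agent.Results.MP_e87c7d_nt.ArbitraryArguments
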