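import Pool.Agent.TH890.AutTup2

/-!
# The asymptotic formula of Hardy and Littlewood for prime tuples, for shifts in automatic sets

Definitions used: `Pool.Agent.H373R2.T7.singZ a z`: the partial product over the primes `p ≤ z` of
`(1 - ν(p) / p) / (1 - 1 / p) ^ (s + 1)`, where `ν(p)` is the number of `r < p` for which `p` divides
`r (r + a 1) ... (r + a s)`; `Pool.Agent.H373R2.T7.tupleCount a N`: the sum of
`log p * ∏ i, log (p + a i)` over the primes `p ≤ N` for which all `p + a i` are primes;
`Pool.Agent.H373R2.T7.Admissible a`: for every prime `p` there is an `r` such that `p` divides neither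
`r` nor any `r + a i`; `Pool.Agent.H560R3.GB.primeTuples a N`: the number of primes `p ≤ N` for which
all `p + a i` are primes. From Mathlib: `DFA ℕ σ`: the deterministic automata with the set of states `σ`
and the alphabet `ℕ`; `M.accepts`: the set of the words accepted by `M`; `Nat.digits b v`: the digits of `v`
in base `b`, from the least significant to the most significant one.
-/

set_option autoImplicit false

namespace Pool.Agent.Results.MP_e87c7d_nt.AutomaticShifts

open Finset Pool.Agent.H560R3.GB
open Pool.Agent.H373R2.T7 (singZ tupleCount Admissible)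

/-- The formula of Hardy and Littlewood for the tuple `p, p + a 1, ..., p + a s` and the primes `p ≤ N`: the
singular series converges, its sum `S` predicts the weighted number of prime tuples with an error of
at most `N / log ^ U N`, and, if the shifts are admissible, `S` is positive and `S N / log ^ (s + 1) N`
predicts the number of prime tuples with a relative error of at most `ε`. -/
def Holds {s : ℕ} (ε : ℝ) (U N : ℕ) (a : Fin s → ℕ) : Prop :=
  ∃ S : ℝ, Filter.Tendsto (fun z => singZ (fun i => (a i : ℤ)) z) Filter.atTop (nhds S) ∧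
    |tupleCount (fun i => (a i : ℤ)) N - S * N| ≤ (N : ℝ) / Real.log N ^ U ∧
    (Admissible (fun i => (a i : ℤ)) → 0 < S ∧
      |(primeTuples a N : ℝ) - S * (N / Real.log N ^ (s + 1))| ≤ ε * (S * (N / Real.log N ^ (s + 1))))

open Classical in
/-- The elements `v < N` of the automatic set given by the base `b` and the automaton `M`: the integers whose base
`b` digits are accepted by `M`. -/
noncomputable def aut {σ : Type} (b : ℕ) (M : DFA ℕ σ) (N : ℕ) : Finset ℕ :=
  (range N).filter fun v => Nat.digits b v ∈ M.accepts

open Classical in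
/-- Let `s ≥ 1`, and let `S 1, ..., S s` be automatic sets, in arbitrary bases `b i ≥ 2`, which are not sparse: the
number of the elements of `S i` below `N` is not bounded by a power of `log N`. Let `κ i ≥ 1`, `B`, `U` and `ε > 0` be
fixed. Then, if `N` is large, for all integers `0 ≤ c i ≤ B N`, the formula of Hardy and Littlewood for the primes
`p ≤ N` and the tuple `p, p + a 1, ..., p + a s` with `a i = c i + κ i * v i` holds for all the vectors
`(v 1, ..., v s)` of elements `v i < N` of `S i`, with the exception of a proportion of at most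
`1 / log ^ U N` of these vectors. -/
theorem result (s : ℕ) (hs : 1 ≤ s) (b : Fin s → ℕ) (hb : ∀ i, 2 ≤ b i) (σ : Fin s → Type) [∀ i, Finite (σ i)]
    (M : ∀ i, DFA ℕ (σ i))
    (hM : ∀ i, ∀ k : ℕ, ∃ᶠ N : ℕ in Filter.atTop, Real.log N ^ k < ((aut (b i) (M i) N).card : ℝ))
    (κ : Fin s → ℕ) (hκ : ∀ i, 1 ≤ κ i) (B U : ℕ) (ε : ℝ) (hε : 0 < ε) :
    ∃ N₀ : ℕ, ∀ N, N₀ ≤ N → ∀ c : Fin s → ℕ, (∀ i, c i ≤ B * N) →
      (((Fintype.piFinset fun i => aut (b i) (M i) N).filter fun v =>
        ¬ Holds ε U N (fun i => c i + κ i * v i)).card : ℝ) ≤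
      ((Fintype.piFinset fun i => aut (b i) (M i) N).card : ℝ) / Real.log N ^ U := by
  have hos : ∀ i, Pool.Agent.TH890.OneShift (fun v => Nat.digits (b i) v ∈ (M i).accepts) (κ i) (B + 1) (2 * U + 6 + s + 2) := by
    intro i
    have := Fintype.ofFinite (σ i)
    exact Pool.Agent.W93.AU.au_one (b i) (hb i) (M i) (fun k => hM i k) (κ i) (hκ i) (B + 1) (by omega) _
  obtain ⟨N₀, h⟩ := Pool.Agent.TH890.os_final s hs _ κ hκ (B + 1) U ε hε hos
  refine ⟨N₀ + 3, fun N hN c hc => ?_⟩
  have h1 := h N (by omega) c (fun i => (hc i).trans (Nat.mul_le_mul_right _ (by omega)))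
  have hlog : 0 < Real.log N := Real.log_pos (by exact_mod_cast (by omega : 1 < N))
  rw [le_div_iff₀ (by positivity), mul_comm]
  exact h1

end Pool.Agent.Results.MP_e87c7d_nt.AutomaticShifts
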