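import Mathlib
import Pool.Agent.TH816.RP.M1

/-!
# Residue classes of consecutive primes: one third of all pairs

The prime tuples conjecture predicts that all `φ(q) ^ 2` pairs `(a, b)` of reduced residue classes modulo `q`
are of the form `(p_n, p_(n+1))` modulo `q` for infinitely many `n` (`p_n` is the `n`-th prime). We prove this for at
least one third of the pairs, for every modulus `q`. More precisely the relation that `b` follows `a` infinitely often
has no four classes `a_0, ..., a_3` without `i < j` such that `a_j` follows `a_i`.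
-/

set_option autoImplicit false

namespace Pool.Agent.Results.MP_e87c7d_nt.ConsecutiveResiduePairs

open Pool.Agent.TH816.RP

/-- `b` follows `a`: `p_n ≡ a`, `p_(n+1) ≡ b` modulo `q` and `p_(n+1) - p_n ≤ C q` for infinitely many
`n`, where `p_n = Nat.nth Nat.Prime n` are the primes in increasing order. -/
def Follows (q C : ℕ) (a b : (ZMod q)ˣ) : Prop :=
  {n : ℕ | ((Nat.nth Nat.Prime n : ℕ) : ZMod q) = a ∧ ((Nat.nth Nat.Prime (n + 1) : ℕ) : ZMod q) = b ∧
    Nat.nth Nat.Prime (n + 1) ≤ Nat.nth Nat.Prime n + C * q}.Infinite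

/-- There is an absolute constant `C` such that for every `q ≥ 1`: among any four reduced classes `a_0, ..., a_3`
modulo `q` (repetitions allowed) there are `i < j` such that `(a_i, a_j)` is `(p_n, p_(n+1))` modulo `q` for
infinitely many `n` with `p_(n+1) - p_n ≤ C q`. Consequently, with `r(a)` the number of classes `b` which follow `a`
in this sense and `r'(b)` the number of classes which `b` follows, `∑ 1 / r(a) ≤ 3` and `∑ 1 / r'(b) ≤ 3`
(all `r(a)`, `r'(b)` are at least 1), and at least one third of all the `φ(q) ^ 2` pairs occur. -/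
theorem result :
    ∃ C : ℕ, ∀ (q : ℕ) [NeZero q],
      (∀ a : Fin 4 → (ZMod q)ˣ, ∃ i j : Fin 4, i < j ∧ Follows q C (a i) (a j)) ∧
      (∀ a : (ZMod q)ˣ, 1 ≤ {b : (ZMod q)ˣ | Follows q C a b}.ncard ∧
        1 ≤ {b : (ZMod q)ˣ | Follows q C b a}.ncard) ∧
      ∑ a : (ZMod q)ˣ, (1 : ℝ) / ({b : (ZMod q)ˣ | Follows q C a b}.ncard : ℝ) ≤ 3 ∧
      ∑ b : (ZMod q)ˣ, (1 : ℝ) / ({a : (ZMod q)ˣ | Follows q C a b}.ncard : ℝ) ≤ 3 ∧
      q.totient ^ 2 ≤ 3 * {x : (ZMod q)ˣ × (ZMod q)ˣ | Follows q C x.1 x.2}.ncard := by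
  classical
  obtain ⟨C, hC⟩ := pairs
  refine ⟨C, fun q _ => ?_⟩
  have h4 := hC q
  have hset : ∀ (R : (ZMod q)ˣ → Prop), {b : (ZMod q)ˣ | R b}.ncard = (Finset.univ.filter R).card := by
    intro R
    rw [← Set.ncard_coe_finset]
    congr 1
    ext w
    simp
  have hself : ∀ a : (ZMod q)ˣ, Pool.Agent.TH816.RP.Follows q C a a := fun a => by
    obtain ⟨i, j, _, h⟩ := h4 (fun _ => a)
    exact h
  refine ⟨h4, fun a => ⟨?_, ?_⟩, ?_, ?_, ?_⟩
  · exact Nat.one_le_iff_ne_zero.2 ((Set.ncard_pos (Set.toFinite _)).2 ⟨a, hself a⟩).ne'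
  · exact Nat.one_le_iff_ne_zero.2 ((Set.ncard_pos (Set.toFinite _)).2 ⟨a, hself a⟩).ne'
  · have h := caro_wei (fun a b : (ZMod q)ˣ => Follows q C a b) 3 Finset.univ (fun a _ => h4 a)
    have e : ∀ a : (ZMod q)ˣ, (1 : ℝ) / ({b : (ZMod q)ˣ | Follows q C a b}.ncard : ℝ) =
        1 / (((Finset.univ.filter (fun b => Follows q C a b)).card : ℕ) : ℝ) := by
      intro a
      rw [hset]
    rw [Finset.sum_congr rfl (fun a _ => e a)]
    exact_mod_cast h
  · have h := caro_wei (fun a b : (ZMod q)ˣ => Follows q C b a) 3 Finset.univ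
      (fun a _ => rel_rev (fun a b : (ZMod q)ˣ => Follows q C a b) 3 h4 a)
    have e : ∀ b : (ZMod q)ˣ, (1 : ℝ) / ({a : (ZMod q)ˣ | Follows q C a b}.ncard : ℝ) =
        1 / (((Finset.univ.filter (fun a => Follows q C a b)).card : ℕ) : ℝ) := by
      intro b
      rw [hset]
    rw [Finset.sum_congr rfl (fun b _ => e b)]
    exact_mod_cast h
  · have h := card_rel (fun a b : (ZMod q)ˣ => Follows q C a b) 3 h4
    rw [ZMod.card_units_eq_totient] at h
    refine h.trans (le_of_eq ?_)
    congr 1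
    rw [← Set.ncard_coe_finset]
    congr 1
    ext w
    simp

end Pool.Agent.Results.MP_e87c7d_nt.ConsecutiveResiduePairs
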